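import Pool.Agent.Helper85.PHU.Gab

/-! PHU-7: the hexagons with one roof line. -/

set_option autoImplicit false

open MeasureTheory Set

namespace Pool.Agent.Helper59.PHU

open Pool.Agent.Helper27.PHU Pool.Agent.Helper37.PH Pool.Agent.Helper61.PH Pool.Agent.Helper85.PHU

theorem square_aux {b c lam e : ℝ} (hb : 0 < b) (he : 0 ≤ e) (heb : e ≤ b) :
    2 * c * lam * e - b * lam ^ 2 ≤ c ^ 2 * e := by
  have h1 : 0 ≤ c ^ 2 * e * (b - e) :=
    mul_nonneg (mul_nonneg (sq_nonneg c) he) (by linarith)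
  have h2 : 0 ≤ b * (b * lam ^ 2 - 2 * c * lam * e + c ^ 2 * e) := by
    nlinarith [sq_nonneg (b * lam - c * e)]
  have h3 := nonneg_of_mul_nonneg_right h2 hb
  linarith

/-- the square completion for one side of the floor; `m = b / c` -/
theorem side_aux {b c m lam e : ℝ} (hb : 0 < b) (hc : 0 < c) (hm : m * c = b) (he : 0 ≤ e)
    (heb : e ≤ b) : lam * e - m * lam ^ 2 / 2 ≤ c * e / 2 := by
  have h := square_aux (c := c) (lam := lam) hb he heb
  rw [← hm] at h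
  have h2 : 0 ≤ c * (c * e - 2 * lam * e + m * lam ^ 2) := by nlinarith
  have h3 := nonneg_of_mul_nonneg_right h2 hc
  linarith

/-- the common part: roof `a0 - k x`, two floor lines -/
theorem cov12_aux {K : Set (ℝ × ℝ)} {b c1 c2 r1 r2 l1 l2 lam rho e1 f1 e2 f2 a0 k V : ℝ}
    (h : Frame K b c1 c2 r1 r2 l1 l2) (hf : Feat K b c1 c2 lam rho e1 f1 e2 f2)
    (hr : ∀ z ∈ K, z.2 ≤ a0 - k * z.1)
    (hV : a0 * (1 + lam + rho) - k * ((1 + rho) ^ 2 - lam ^ 2) / 2 - b * (1 + lam + rho)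
      + b / 2 + 3 * (c2 * e2 / 2 + (1 - c2) * f2 / 2) ≤ V) : Cov K V := by
  have hc2 := h.c20
  have hc2' : 0 < 1 - c2 := by linarith [h.c21]
  have hb := h.b0
  obtain ⟨m, hm⟩ : ∃ m, m = b / c2 := ⟨_, rfl⟩
  obtain ⟨n, hn⟩ : ∃ n, n = b / (1 - c2) := ⟨_, rfl⟩
  have hm1 : m * c2 = b := by rw [hm]; field_simp
  have hn1 : n * (1 - c2) = b := by rw [hn]; field_simp
  have hm0 : 0 < m := by rw [hm]; positivity
  have hn0 : 0 < n := by rw [hn]; positivity
  have hmb : b ≤ m := by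
    have : 0 ≤ m * (1 - c2) := mul_nonneg hm0.le hc2'.le
    nlinarith
  have hnb : b ≤ n := by
    have : 0 ≤ n * c2 := mul_nonneg hn0.le hc2.le
    nlinarith
  have hbl : ∀ z ∈ K, b - e2 + -m * z.1 ≤ z.2 := by
    intro z hz
    have h1 := hf.bl z hz
    have h2 : b * (z.1 / c2) = m * z.1 := by rw [hm]; ring
    rw [h2] at h1
    linarith
  have hbr : ∀ z ∈ K, b - n - f2 + n * z.1 ≤ z.2 := by
    intro z hz
    have h1 := hf.br z hz
    have h2 : b * ((1 - z.1) / (1 - c2)) = n * (1 - z.1) := by rw [hn]; ring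
    rw [h2] at h1
    linarith
  have hlam := hf.lam0
  have hrho := hf.rho0
  refine cov_single (X0 := -lam) (X1 := 1 + rho) (a := a0) (b := -k) (c1 := b - e2) (d1 := -m)
    (c2 := b - n - f2) (d2 := n) (q := c2) (by linarith) ?_ ?_ ?_ ?_ ?_ (by linarith)
    (by linarith) ?_
  · intro z hz
    refine ⟨hf.hl z hz, hf.hr z hz, ?_, hbl z hz, hbr z hz⟩
    have := hr z hz
    linarith
  · have h1 := hf.e21
    have h2 := hf.f20
    have h3 : 0 ≤ n * lam := mul_nonneg hn0.le hlam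
    have h4 : 0 ≤ m * lam := mul_nonneg hm0.le hlam
    linarith
  · have h1 := hf.f21
    have h2 := hf.e20
    have h3 : 0 ≤ n * rho := mul_nonneg hn0.le hrho
    have h4 : 0 ≤ m * rho := mul_nonneg hm0.le hrho
    linarith
  · obtain ⟨y, hy⟩ := hf.xl
    have h1 := hbl _ hy
    have h2 := hr _ hy
    simp only at h1 h2
    linarith
  · obtain ⟨y, hy⟩ := hf.xr
    have h1 := hbr _ hy
    have h2 := hr _ hy
    simp only at h1 h2
    linarith
  · have s1 := side_aux (lam := lam) hb hc2 hm1 hf.e20 hf.e21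
    have s2 := side_aux (lam := rho) hb hc2' hn1 hf.f20 hf.f21
    refine le_trans ?_ hV
    have e1 : m * c2 ^ 2 = b * c2 := by rw [← hm1]; ring
    have e2 : n * (1 - c2) ^ 2 = b * (1 - c2) := by rw [← hn1]; ring
    nlinarith

theorem cov12a {K : Set (ℝ × ℝ)} {b c1 c2 r1 r2 l1 l2 lam rho e1 f1 e2 f2 : ℝ}
    (h : Frame K b c1 c2 r1 r2 l1 l2) (hf : Feat K b c1 c2 lam rho e1 f1 e2 f2) :
    Cov K ((1 + lam + rho) / 2 + (1 / 2 - b) * ((1 + lam) ^ 2 - rho ^ 2) / (2 * (1 - c1))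
      + (1 + lam + rho) * f1 + b / 2 + 3 * (c2 * e2 / 2 + (1 - c2) * f2 / 2)) := by
  have hc1' : 0 < 1 - c1 := by linarith [h.c11]
  obtain ⟨k, hk⟩ : ∃ k, k = (1 / 2 - b) / (1 - c1) := ⟨_, rfl⟩
  have hk1 : (1 / 2 - b) * ((1 + lam) ^ 2 - rho ^ 2) / (2 * (1 - c1)) =
      k * ((1 + lam) ^ 2 - rho ^ 2) / 2 := by
    rw [hk]; field_simp
  rw [hk1]
  refine cov12_aux (a0 := b + 1 / 2 + k + f1) (k := k) h hf ?_ ?_
  · intro z hz
    have h1 := hf.tr z hz
    have h2 : (1 / 2 - b) * ((1 - z.1) / (1 - c1)) = k * (1 - z.1) := by rw [hk]; ring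
    rw [h2] at h1
    linarith
  · nlinarith

theorem cov12h {K : Set (ℝ × ℝ)} {b c1 c2 r1 r2 l1 l2 lam rho e1 f1 e2 f2 : ℝ}
    (h : Frame K b c1 c2 r1 r2 l1 l2) (hf : Feat K b c1 c2 lam rho e1 f1 e2 f2) :
    Cov K ((1 + lam + rho) / 2 + (1 / 2 - b) * (1 + lam + rho)
      + b / 2 + 3 * (c2 * e2 / 2 + (1 - c2) * f2 / 2)) := by
  refine cov12_aux (a0 := 1) (k := 0) h hf ?_ ?_
  · intro z hz
    have h1 := h.top z hz
    linarith
  · nlinarith

end Pool.Agent.Helper59.PHU
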